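import Pool.Agent.H88.MCR.Stmts

/-! Row ARR of the board mcr. -/

namespace Pool.MCR

open Classical in
/-- the upper edges at `w` before `w v` -/
noncomputable def bfs {L : Type} [LinearOrder L] (n : ℕ) (D : Diag L) (w v : ℕ) : Finset ℕ :=
  (Finset.range n).filter (fun y => y ≠ w ∧ D.S w y = true ∧
    KL (D.pos w) (D.nx w y) (D.nx w v))

theorem mem_bfs {L : Type} [LinearOrder L] {n : ℕ} {D : Diag L} {w v y : ℕ} :
    y ∈ bfs n D w v ↔ y < n ∧ y ≠ w ∧ D.S w y = true ∧
      KL (D.pos w) (D.nx w y) (D.nx w v) := by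
  classical
  unfold bfs
  rw [Finset.mem_filter, Finset.mem_range]

theorem firstUp_of_bfs (hKIT : KIT_S) (hKLT : KLT_S) {L : Type} [LinearOrder L] {n : ℕ}
    {D : Diag L} {w v : ℕ} (hD : Good n D) (hw : w < n) (hv : v < n) (hvw : v ≠ w)
    (hS : D.S w v = true) (hb : bfs n D w v = ∅) : FirstUp D n w v := by
  obtain ⟨k1, -, k3⟩ := hKIT L n D hD
  obtain ⟨-, -, htot, -, -⟩ := hKLT L (D.pos w)
  refine ⟨hS, fun y hy hyw hyv hSy => ?_⟩
  rcases htot (D.nx w v) (D.nx w y) (k1 w hw v hv hvw.symm).2.1 (k1 w hw y hy hyw.symm).2.1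
    (k3 w hw v hv y hy hvw.symm hyw.symm hyv.symm) with h | h
  · exact h
  · exfalso
    have : y ∈ bfs n D w v := mem_bfs.2 ⟨hy, hyw, hSy, h⟩
    rw [hb] at this
    exact Finset.notMem_empty _ this

theorem exists_first_bfs (hKLT : KLT_S) {L : Type} [LinearOrder L] {n : ℕ}
    {D : Diag L} {w v : ℕ} (hb : (bfs n D w v).Nonempty) :
    ∃ x ∈ bfs n D w v, bfs n D w x = ∅ := by
  obtain ⟨hirr, htr, -, -, -⟩ := hKLT L (D.pos w)
  obtain ⟨x, hx, hmin⟩ := Finset.exists_min_image (bfs n D w v) (fun y => (bfs n D w y).card) hb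
  refine ⟨x, hx, ?_⟩
  rw [Finset.eq_empty_iff_forall_notMem]
  intro y hy
  have h1 := mem_bfs.1 hy
  have h2 := mem_bfs.1 hx
  have hyv : y ∈ bfs n D w v := mem_bfs.2 ⟨h1.1, h1.2.1, h1.2.2.1, htr _ _ _ h1.2.2.2 h2.2.2.2⟩
  have h3 := hmin y hyv
  have h4 : bfs n D w y ⊂ bfs n D w x := by
    rw [Finset.ssubset_iff_of_subset]
    · exact ⟨y, hy, fun h => hirr _ (mem_bfs.1 h).2.2.2⟩
    · intro z hz
      have h5 := mem_bfs.1 hz
      exact mem_bfs.2 ⟨h5.1, h5.2.1, h5.2.2.1, htr _ _ _ h5.2.2.2 h1.2.2.2⟩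
  exact absurd (Finset.card_lt_card h4) (not_lt.2 h3)

theorem twist_nx {L : Type} (D : Diag L) (w x y : ℕ) (hy : y ≠ x) (hyw : y ≠ w) :
    (twist D w x).nx w y = lp (D.nx w y) 0 := by
  have h2 : ¬ (w = x ∧ y = w) := fun h => hyw h.2
  unfold Diag.nx twist
  simp only [true_and, if_neg hy, if_neg h2]
  cases D.E w y with
  | nil => rfl
  | cons a t => rfl

theorem arr_aux (hKIT : KIT_S) (hKLT : KLT_S) (hTGD : TGD_S) (hTTH : TTH_S) (n : ℕ)
    (T : ℕ → ℕ → Prop) (w u : ℕ) (hw : w < n) (hu : u < n) (huw : u ≠ w) (k : ℕ) :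
    ∀ (L : Type) [LinearOrder L] (D : Diag L), Good n D → Thr T n D → D.S w u = true →
      (bfs n D w u).card ≤ k → ∃ (L' : Type) (_ : LinearOrder L') (D' : Diag L'), Good n D' ∧
        Thr T n D' ∧ FirstUp D' n w u := by
  induction k with
  | zero =>
    intro L _ D hD hT hS hc
    exact ⟨L, inferInstance, D, hD, hT, firstUp_of_bfs hKIT hKLT hD hw hu huw hS
      (Finset.card_eq_zero.1 (Nat.le_zero.1 hc))⟩
  | succ k ih =>
    intro L _ D hD hT hS hc
    by_cases hb : bfs n D w u = ∅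
    · exact ⟨L, inferInstance, D, hD, hT, firstUp_of_bfs hKIT hKLT hD hw hu huw hS hb⟩
    obtain ⟨x, hx, hx0⟩ := exists_first_bfs hKLT (Finset.nonempty_iff_ne_empty.2 hb)
    obtain ⟨hxn, hxw, hSx, hxu⟩ := mem_bfs.1 hx
    obtain ⟨hirr, -, -, -, -⟩ := hKLT L (D.pos w)
    have hux : u ≠ x := by
      rintro rfl
      exact hirr _ hxu
    have hF : FirstUp D n w x := firstUp_of_bfs hKIT hKLT hD hw hxn hxw hSx hx0
    have hS' : (twist D w x).S w u = true := by
      have h2 : ¬ (w = x ∧ u = w) := fun h => huw h.2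
      unfold twist
      simp only [true_and, if_neg hux, if_neg h2]
      exact hS
    refine ih (L ×ₗ ℤ) (twist D w x) (hTGD L n D w x hD hw hxn hxw hF)
      (hTTH L n D w x T hD hT hw hxn hxw hF) hS' ?_
    have hsub : bfs n (twist D w x) w u ⊆ (bfs n D w u).erase x := by
      intro y hy
      obtain ⟨h1, h2, h3, h4⟩ := mem_bfs.1 hy
      have hyx : y ≠ x := by
        rintro rfl
        have h5 : (twist D w y).S w y = false := by
          unfold twist
          simp only [true_and, if_true]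
        rw [h5] at h3
        exact Bool.false_ne_true h3
      have h5 : (twist D w x).S w y = D.S w y := by
        have e2 : ¬ (w = x ∧ y = w) := fun h => h2 h.2
        unfold twist
        simp only [true_and, if_neg hyx, if_neg e2]
      rw [h5] at h3
      rw [twist_nx D w x y hyx h2, twist_nx D w x u hux huw] at h4
      have h6 : (twist D w x).pos w = lp (D.pos w) 0 := rfl
      rw [h6] at h4
      have h7 := ((hKLT L (D.pos w)).2.2.2.2 (D.nx w y) (D.nx w u)).1 h4
      exact Finset.mem_erase.2 ⟨hyx, mem_bfs.2 ⟨h1, h2, h3, h7⟩⟩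
    have h8 := Finset.card_le_card hsub
    rw [Finset.card_erase_of_mem hx] at h8
    omega

theorem arr_thm (hKIT : KIT_S) (hKLT : KLT_S) (hTGD : TGD_S) (hTTH : TTH_S) (hFLP : FLP_S) :
    ARR_S := by
  intro L _ n D T w u hD hT hw hu huw
  by_cases hS : D.S w u = true
  · exact arr_aux hKIT hKLT hTGD hTTH n T w u hw hu huw _ L D hD hT hS le_rfl
  · obtain ⟨h1, h2⟩ := hFLP L n D T hD hT
    have hS' : (flip D).S w u = true := by
      show (!(D.S w u)) = true
      rw [Bool.not_eq_true] at hS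
      rw [hS]
      rfl
    exact arr_aux hKIT hKLT hTGD hTTH n T w u hw hu huw _ L (flip D) h1 h2 hS' le_rfl

end Pool.MCR
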